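import Pool.Agent.H81.D3.Targets

/-!
MP_ee74d2_an, dimension 3, the row PRN: pruning. Page H81_D3N.md.
-/

set_option autoImplicit false

namespace Pool.Agent.H36.D3

open Pool.Agent.H81.D3

open scoped Classical in
/-- deletion of a fibre which is too small increases the value -/
private theorem del {γ δ : Type} (F : Finset γ) (f : γ → δ) (x : γ) (hx : x ∈ F) (s : ℝ)
    (hs : 0 ≤ s) (h : ((F.filter fun y => f y = f x).card : ℝ) < s) :
    (F.card : ℝ) - s * (F.image f).card <
      ((F.filter fun y => ¬ f y = f x).card : ℝ) -
        s * ((F.filter fun y => ¬ f y = f x).image f).card := by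
  have h1 : (F.filter fun y => f y = f x).card + (F.filter fun y => ¬ f y = f x).card = F.card :=
    Finset.card_filter_add_card_filter_not _
  have h2 : (F.filter fun y => ¬ f y = f x).image f ⊆ (F.image f).erase (f x) := by
    intro z hz
    obtain ⟨y, hy, rfl⟩ := Finset.mem_image.1 hz
    obtain ⟨hy1, hy2⟩ := Finset.mem_filter.1 hy
    exact Finset.mem_erase.2 ⟨hy2, Finset.mem_image_of_mem f hy1⟩
  have h3 : ((F.filter fun y => ¬ f y = f x).image f).card + 1 ≤ (F.image f).card := by
    have h4 := Finset.card_le_card h2
    have h5 := Finset.card_erase_add_one (Finset.mem_image_of_mem f hx)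
    omega
  have h1' : ((F.filter fun y => f y = f x).card : ℝ) +
      ((F.filter fun y => ¬ f y = f x).card : ℝ) = F.card := by exact_mod_cast h1
  have h3' : (((F.filter fun y => ¬ f y = f x).image f).card : ℝ) + 1 ≤ (F.image f).card := by
    exact_mod_cast h3
  have h6 : s * ((((F.filter fun y => ¬ f y = f x).image f).card : ℝ) + 1) ≤
      s * (F.image f).card := mul_le_mul_of_nonneg_left h3' hs
  rw [mul_add, mul_one] at h6
  linarith

theorem pf_PRN : T_PRN := by
  classical
  intro α β F s t hs ht hF
  let v : Finset (α × β) → ℝ := fun F' => (F'.card : ℝ) -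
    s * (F'.image fun e => e.1).card - t * (F'.image fun e => e.2).card
  obtain ⟨F', hF', hmax⟩ := Finset.exists_max_image F.powerset v ⟨F, Finset.mem_powerset_self F⟩
  have hsub : F' ⊆ F := Finset.mem_powerset.1 hF'
  have hvF : v F ≤ v F' := hmax F (Finset.mem_powerset_self F)
  have hv0 : 0 < v F := by
    have h1 : s * (F.image fun e => e.1).card + t * (F.image fun e => e.2).card < F.card := by
      exact_mod_cast hF
    show 0 < (F.card : ℝ) - s * (F.image fun e => e.1).card - t * (F.image fun e => e.2).card
    linarith
  refine ⟨F', hsub, ?_, ?_⟩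
  · rw [Finset.nonempty_iff_ne_empty]
    rintro rfl
    have h1 : v ∅ = 0 := by
      show ((∅ : Finset (α × β)).card : ℝ) - s * ((∅ : Finset (α × β)).image fun e => e.1).card -
        t * ((∅ : Finset (α × β)).image fun e => e.2).card = 0
      simp
    linarith
  · intro e he
    constructor
    · by_contra hcon
      have hcon' : ((F'.filter fun e' => e'.1 = e.1).card : ℝ) < s := not_le.1 hcon
      have h1 := del F' (fun e => e.1) e he s hs hcon'
      have h2 := hmax (F'.filter fun y => ¬ y.1 = e.1)
        (Finset.mem_powerset.2 ((Finset.filter_subset _ _).trans hsub))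
      have h3 : (((F'.filter fun y => ¬ y.1 = e.1).image fun e => e.2).card : ℝ) ≤
          (F'.image fun e => e.2).card := by
        exact_mod_cast Finset.card_le_card (Finset.image_subset_image (Finset.filter_subset _ _))
      have h4 := mul_le_mul_of_nonneg_left h3 ht
      have h5 : v (F'.filter fun y => ¬ y.1 = e.1) =
          ((F'.filter fun y => ¬ y.1 = e.1).card : ℝ) -
          s * ((F'.filter fun y => ¬ y.1 = e.1).image fun e => e.1).card -
          t * ((F'.filter fun y => ¬ y.1 = e.1).image fun e => e.2).card := rfl
      have h6 : v F' = (F'.card : ℝ) - s * (F'.image fun e => e.1).card -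
        t * (F'.image fun e => e.2).card := rfl
      linarith
    · by_contra hcon
      have hcon' : ((F'.filter fun e' => e'.2 = e.2).card : ℝ) < t := not_le.1 hcon
      have h1 := del F' (fun e => e.2) e he t ht hcon'
      have h2 := hmax (F'.filter fun y => ¬ y.2 = e.2)
        (Finset.mem_powerset.2 ((Finset.filter_subset _ _).trans hsub))
      have h3 : (((F'.filter fun y => ¬ y.2 = e.2).image fun e => e.1).card : ℝ) ≤
          (F'.image fun e => e.1).card := by
        exact_mod_cast Finset.card_le_card (Finset.image_subset_image (Finset.filter_subset _ _))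
      have h4 := mul_le_mul_of_nonneg_left h3 hs
      have h5 : v (F'.filter fun y => ¬ y.2 = e.2) =
          ((F'.filter fun y => ¬ y.2 = e.2).card : ℝ) -
          s * ((F'.filter fun y => ¬ y.2 = e.2).image fun e => e.1).card -
          t * ((F'.filter fun y => ¬ y.2 = e.2).image fun e => e.2).card := rfl
      have h6 : v F' = (F'.card : ℝ) - s * (F'.image fun e => e.1).card -
        t * (F'.image fun e => e.2).card := rfl
      linarith

end Pool.Agent.H36.D3
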